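import Pool.Agent.H37.CPX.Targets

/-!
# Board cpx_modules: row DEP (dependent choice)
-/

set_option autoImplicit false

namespace Pool.Agent.H86.CPX

open Finset Pool.Agent.H37.CPX

open Classical in
/-- one step of the recursion -/
noncomputable def stp {V α : Type} (dp : V → ℕ) (Q : V → (V → α) → α → Prop) (a0 : α) (v : V)
    (rec : (c : V) → dp c < dp v → α) : α :=
  if h : ∃ e, Q v (fun c => if hc : dp c < dp v then rec c hc else a0) e then h.choose else a0

theorem pf_DEP : S_DEP := by
  classical
  intro V α dp Q ⟨a0⟩ hinv hex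
  obtain ⟨E, hE⟩ : ∃ E : V → α, ∀ v, E v = stp dp Q a0 v (fun c _ => E c) := by
    refine ⟨(InvImage.wf dp Nat.lt_wfRel.wf).fix (fun v rec => stp dp Q a0 v (fun c hc => rec c hc)),
      fun v => ?_⟩
    rw [WellFounded.fix_eq]
  refine ⟨E, ?_⟩
  have main : ∀ n v, dp v = n → Q v E (E v) := by
    intro n
    induction n using Nat.strong_induction_on with
    | _ n ih =>
      intro v hv
      obtain ⟨e, he⟩ := hex v E fun c hc => ih (dp c) (hv ▸ hc) c rfl
      have hag : ∀ c, dp c < dp v → E c = (fun c => if hc : dp c < dp v then E c else a0) c := by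
        intro c hc
        simp [hc]
      have h1 : ∃ e, Q v (fun c => if hc : dp c < dp v then E c else a0) e :=
        ⟨e, hinv v E _ e hag he⟩
      have h2 : E v = h1.choose := by
        rw [hE v]
        unfold stp
        rw [dif_pos h1]
      rw [h2]
      exact hinv v _ E _ (fun c hc => (hag c hc).symm) h1.choose_spec
  exact fun v => main (dp v) v rfl

end Pool.Agent.H86.CPX
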